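import Pool.Agent.TH700.TN.Defs

/-!
# Dynamic programming is a linear tensor network
-/

set_option autoImplicit false

open Finset

namespace Pool.Agent.TH700.TN

open Pool.Agent.W952.SF

variable {n r m : ℕ}

/-- The states of the dynamic program: the union of the chosen sets and their number. -/
abbrev St (n m : ℕ) : Type := Finset (Fin n) × Fin (m + 1)

/-- The tensor for the set `v`. -/
def ct (v : Small r n) (i j k : St n m) : ℚ :=
  (if j = (∅, 0) then (if i = k then 1 else 0) else 0) +
    (if j.2.1 = 1 ∧ j.1 = ∅ then (if i.1 ∪ v.1 = k.1 ∧ i.2.1 + 1 = k.2.1 then 1 else 0) else 0)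

/-- The vector of a leaf. -/
def lf (b : Bool) (j : St n m) : ℚ :=
  (if j = (∅, 0) then 1 else 0) + (if b then (if j.2.1 = 1 ∧ j.1 = ∅ then 1 else 0) else 0)

/-- The vector of the first leaf. -/
def lf0 (v : Small r n) (b : Bool) (k : St n m) : ℚ :=
  (if k = (∅, 0) then 1 else 0) + (if b then (if v.1 = k.1 ∧ 1 = k.2.1 then 1 else 0) else 0)

/-- The dynamic program for the list of the sets. -/
def dp (m : ℕ) (v : Small r n) : List (Small r n) → Net ℚ (Small r n) (St n m)
  | [] => .leaf v (lf0 v)
  | u :: l => .node (dp m u l) (.leaf v lf) (ct v)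

theorem dp_linear (v : Small r n) (l : List (Small r n)) : (dp m v l).Linear := by
  induction l generalizing v with
  | nil => trivial
  | cons u l ih => exact ⟨ih u, v, lf, rfl⟩

open Classical in
theorem dp_reads (v w : Small r n) (l : List (Small r n)) :
    (dp m v l).reads w = (v :: l).count w := by
  induction l generalizing v with
  | nil =>
    unfold dp Net.reads
    rw [List.count_singleton]
    by_cases h : v = w
    · simp [h]
    · have h' : ¬ v.1 = w.1 := fun h2 => h (Subtype.ext h2)
      simp [h, h']
  | cons u l ih =>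
    unfold dp
    rw [Net.reads, ih, Net.reads, List.count_cons (l := u :: l)]
    by_cases h : v = w
    · simp [h]
    · have h' : ¬ v.1 = w.1 := fun h2 => h (Subtype.ext h2)
      simp [h, h']

theorem dp_size (v : Small r n) (l : List (Small r n)) : (dp m v l).size = 2 * l.length + 1 := by
  induction l generalizing v with
  | nil => rfl
  | cons u l ih =>
    unfold dp
    rw [Net.size, ih, Net.size, List.length_cons]
    ring

theorem eval_step (hm : 1 ≤ m) (T : Net ℚ (Small r n) (St n m)) (v : Small r n)
    (x : Small r n → Bool) (k : St n m) :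
    (Net.node T (.leaf v lf) (ct v)).eval x k = T.eval x k +
      ∑ i : St n m, if x v = true ∧ i.1 ∪ v.1 = k.1 ∧ i.2.1 + 1 = k.2.1 then T.eval x i else 0 := by
  have hne : ((∅, ⟨1, by omega⟩) : St n m) ≠ (∅, 0) := by
    intro h
    have := congrArg (fun q : St n m => q.2.1) h
    simp at this
  have h1 : ∀ i : St n m, ∑ j, ct v i j k * (T.eval x i * lf (x v) j) =
      (if i = k then T.eval x i else 0) +
        (if x v = true ∧ i.1 ∪ v.1 = k.1 ∧ i.2.1 + 1 = k.2.1 then T.eval x i else 0) := by
    intro i
    have h2 : ∀ j : St n m, ct v i j k * (T.eval x i * lf (x v) j) =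
        (if j = (∅, 0) then (if i = k then T.eval x i else 0) else 0) +
        (if j = (∅, ⟨1, by omega⟩) then (if x v = true ∧ i.1 ∪ v.1 = k.1 ∧ i.2.1 + 1 = k.2.1 then
          T.eval x i else 0) else 0) := by
      intro j
      unfold ct lf
      by_cases h3 : j = (∅, 0)
      · subst h3
        simp [hne.symm]
      · by_cases h4 : j = (∅, ⟨1, by omega⟩)
        · subst h4
          simp only [hne, if_false, if_true, and_self, zero_add]
          split_ifs <;> simp_all
        · have h5 : ¬ (j.2.1 = 1 ∧ j.1 = ∅) := by
            rintro ⟨h6, h7⟩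
            exact h4 (Prod.ext h7 (Fin.ext h6))
          simp [h3, h4, h5]
    rw [sum_congr rfl fun j _ => h2 j, sum_add_distrib]
    simp
  simp only [Net.eval]
  rw [sum_congr rfl fun i _ => h1 i, sum_add_distrib]
  simp

theorem dp_spec (hm : 1 ≤ m) (x : Small r n → Bool) (l : List (Small r n)) :
    ∀ v : Small r n, (v :: l).Nodup → ∀ k : St n m, 0 ≤ (dp m v l).eval x k ∧
      (0 < (dp m v l).eval x k ↔ ∃ G : Finset (Small r n), G ⊆ (v :: l).toFinset ∧
        (∀ B ∈ G, x B = true) ∧ G.card = k.2.1 ∧ G.biUnion (fun B => B.1) = k.1) := by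
  classical
  induction l with
  | nil =>
    intro v _ k
    unfold dp Net.eval lf0
    refine ⟨by positivity, ?_⟩
    constructor
    · intro h
      by_cases h1 : k = (∅, 0)
      · subst h1
        exact ⟨∅, empty_subset _, by simp, by simp, by simp⟩
      · rw [if_neg h1, zero_add] at h
        split_ifs at h with h2 h3
        · refine ⟨{v}, by simp, by simpa using h2, ?_, ?_⟩
          · rw [card_singleton]
            exact h3.2
          · rw [singleton_biUnion]
            exact h3.1
        · exact absurd h (lt_irrefl _)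
        · exact absurd h (lt_irrefl _)
    · rintro ⟨G, h1, h2, h3, h4⟩
      have h5 : G ⊆ {v} := by simpa using h1
      rcases subset_singleton_iff.1 h5 with rfl | rfl
      · have h6 : k = (∅, 0) := by
          refine Prod.ext ?_ (Fin.ext ?_)
          · rw [← h4, biUnion_empty]
          · rw [← h3, card_empty]
            rfl
        rw [if_pos h6]
        have : (0 : ℚ) ≤ (if x v then (if v.1 = k.1 ∧ 1 = k.2.1 then 1 else 0) else 0) := by
          positivity
        linarith
      · have h6 : x v = true := h2 v (mem_singleton_self v)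
        rw [singleton_biUnion] at h4
        rw [card_singleton] at h3
        have h7 : v.1 = k.1 ∧ 1 = k.2.1 := ⟨h4, h3⟩
        rw [h6, if_pos rfl, if_pos h7]
        have : (0 : ℚ) ≤ (if k = (∅, 0) then 1 else 0) := by positivity
        linarith
  | cons u l ih =>
    intro v hnd k
    have hv : v ∉ u :: l := (List.nodup_cons.1 hnd).1
    have ih1 := ih u (List.nodup_cons.1 hnd).2
    unfold dp
    rw [eval_step hm]
    have h0 : ∀ i : St n m, (0 : ℚ) ≤ (if x v = true ∧ i.1 ∪ v.1 = k.1 ∧ i.2.1 + 1 = k.2.1 then
        (dp m u l).eval x i else 0) := by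
      intro i
      split_ifs
      · exact (ih1 i).1
      · exact le_rfl
    have h1 : (0 : ℚ) ≤ ∑ i : St n m, (if x v = true ∧ i.1 ∪ v.1 = k.1 ∧ i.2.1 + 1 = k.2.1 then
        (dp m u l).eval x i else 0) := sum_nonneg fun i _ => h0 i
    refine ⟨add_nonneg (ih1 k).1 h1, ?_⟩
    constructor
    · intro h
      rcases (ih1 k).1.eq_or_lt with h2 | h2
      · rw [← h2, zero_add] at h
        obtain ⟨i, -, hi⟩ := exists_lt_of_sum_lt (s := univ) (f := fun _ : St n m => (0 : ℚ))
          (by simpa using h)
        split_ifs at hi with h3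
        · obtain ⟨G, g1, g2, g3, g4⟩ := ((ih1 i).2).1 hi
          have hvG : v ∉ G := fun h5 => hv (by simpa using g1 h5)
          refine ⟨insert v G, ?_, ?_, ?_, ?_⟩
          · intro B hB
            rw [mem_insert] at hB
            rcases hB with rfl | hB
            · simp
            · have := g1 hB
              simp only [List.toFinset_cons, mem_insert] at this ⊢
              exact Or.inr this
          · intro B hB
            rw [mem_insert] at hB
            rcases hB with rfl | hB
            · exact h3.1
            · exact g2 B hB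
          · rw [card_insert_of_notMem hvG, g3, h3.2.2]
          · rw [biUnion_insert, g4, ← h3.2.1, union_comm]
        · exact absurd hi (lt_irrefl _)
      · obtain ⟨G, g1, g2⟩ := ((ih1 k).2).1 h2
        refine ⟨G, fun B hB => ?_, g2⟩
        have := g1 hB
        simp only [List.toFinset_cons, mem_insert] at this ⊢
        exact Or.inr this
    · rintro ⟨G, g1, g2, g3, g4⟩
      by_cases hvG : v ∈ G
      · have g5 : (G.erase v).card + 1 = k.2.1 := by
          rw [card_erase_add_one hvG, g3]
        have hk := k.2.2
        obtain ⟨i, hi⟩ : ∃ i : St n m, i = ((G.erase v).biUnion (fun B => B.1),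
            ⟨(G.erase v).card, by omega⟩) := ⟨_, rfl⟩
        have h3 : 0 < (dp m u l).eval x i := by
          refine ((ih1 i).2).2 ⟨G.erase v, fun B hB => ?_, fun B hB => g2 B (mem_of_mem_erase hB),
            by rw [hi], by rw [hi]⟩
          have h4 := g1 (mem_of_mem_erase hB)
          have h5 := ne_of_mem_erase hB
          simp only [List.toFinset_cons, mem_insert] at h4 ⊢
          rcases h4 with h4 | h4
          · exact absurd h4 h5
          · exact h4
        have h4 : x v = true ∧ i.1 ∪ v.1 = k.1 ∧ i.2.1 + 1 = k.2.1 := by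
          refine ⟨g2 v hvG, ?_, ?_⟩
          · rw [hi, ← g4]
            conv_rhs => rw [← insert_erase hvG, biUnion_insert]
            exact union_comm _ _
          · rw [hi]
            exact g5
        have h5 : (dp m u l).eval x i ≤ ∑ i : St n m, (if x v = true ∧ i.1 ∪ v.1 = k.1 ∧
            i.2.1 + 1 = k.2.1 then (dp m u l).eval x i else 0) := by
          have h6 := single_le_sum (s := univ) (f := fun i : St n m => (if x v = true ∧
            i.1 ∪ v.1 = k.1 ∧ i.2.1 + 1 = k.2.1 then (dp m u l).eval x i else 0))
            (fun i _ => h0 i) (mem_univ i)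
          simp only [if_pos h4] at h6
          exact h6
        have h6 := (ih1 k).1
        linarith
      · have h3 : 0 < (dp m u l).eval x k := by
          refine ((ih1 k).2).2 ⟨G, fun B hB => ?_, g2, g3, g4⟩
          have h4 := g1 hB
          have h5 : B ≠ v := fun h => hvG (h ▸ hB)
          simp only [List.toFinset_cons, mem_insert] at h4 ⊢
          rcases h4 with h4 | h4
          · exact absurd h4 h5
          · exact h4
        linarith

/-- **Dynamic programming as a linear tensor network.** -/
theorem upper (r n m : ℕ) (hm : 1 ≤ m) : ∃ (T : Net ℚ (Small r n) (St n m)) (a : St n m → ℚ),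
    T.Linear ∧ (∀ v, T.reads v = 1) ∧ T.size = 2 * Fintype.card (Small r n) - 1 ∧
      ∀ x, T.value a x ≠ 0 ↔ HasCover m x := by
  classical
  obtain ⟨L, hL⟩ : ∃ L, L = (univ : Finset (Small r n)).toList := ⟨_, rfl⟩
  have hnd : L.Nodup := by rw [hL]; exact nodup_toList _
  have hmem : ∀ v, v ∈ L := by intro v; rw [hL]; simp
  have hlen : L.length = Fintype.card (Small r n) := by rw [hL, length_toList, card_univ]
  obtain ⟨v, l, rfl⟩ : ∃ v l, L = v :: l := by
    cases L with
    | nil => exact absurd (hmem ⟨∅, by simp⟩) (by simp)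
    | cons v l => exact ⟨v, l, rfl⟩
  refine ⟨dp m v l, fun k => if k.1 = univ then 1 else 0, dp_linear v l, ?_, ?_, ?_⟩
  · intro w
    rw [dp_reads]
    exact List.count_eq_one_of_mem hnd (hmem w)
  · rw [dp_size, ← hlen, List.length_cons]
    omega
  · intro x
    have h1 := dp_spec hm x l v hnd
    have h2 : ∀ k : St n m, (0 : ℚ) ≤ (if k.1 = univ then 1 else 0) * (dp m v l).eval x k := by
      intro k
      refine mul_nonneg (by positivity) (h1 k).1
    unfold Net.value
    rw [Ne, sum_eq_zero_iff_of_nonneg (fun k _ => h2 k)]
    push Not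
    constructor
    · rintro ⟨k, -, hk⟩
      have h3 : k.1 = univ := by
        by_contra h4
        rw [if_neg h4, zero_mul] at hk
        exact hk rfl
      rw [if_pos h3, one_mul] at hk
      obtain ⟨G, -, g2, g3, g4⟩ := (h1 k).2.1 (lt_of_le_of_ne (h1 k).1 (Ne.symm hk))
      refine ⟨G, ?_, g2, fun u => ?_⟩
      · have := k.2.2
        omega
      · have h5 : u ∈ G.biUnion (fun B => B.1) := by
          rw [g4, h3]
          exact mem_univ _
        simpa using h5
    · rintro ⟨G, g1, g2, g3⟩
      obtain ⟨k, hk⟩ : ∃ k : St n m, k = (univ, ⟨G.card, by omega⟩) := ⟨_, rfl⟩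
      refine ⟨k, mem_univ _, ?_⟩
      have h4 : 0 < (dp m v l).eval x k := by
        refine (h1 k).2.2 ⟨G, fun B _ => ?_, g2, by rw [hk], ?_⟩
        · rw [List.mem_toFinset]
          exact hmem B
        · rw [hk]
          ext u
          simpa using g3 u
      rw [if_pos (by rw [hk]), one_mul]
      exact h4.ne'

end Pool.Agent.TH700.TN
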