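import Pool.Agent.TH700.TN.Fin
import Pool.Agent.W952.SF.Asy

/-!
# The asymptotic form of the bounds
-/

set_option autoImplicit false

open Finset Filter Topology

namespace Pool.Agent.TH700.TN

open Pool.Agent.W896.RK Pool.Agent.W896.HP Pool.Agent.W952.SF

theorem asy (b : ℝ) (hb : 1 < b) (ε : ℝ) (hε : 0 < ε) (c : ℕ) : ∃ r : ℕ, 1 ≤ r ∧ ∀ A : ℕ,
    ∃ C : ℕ, 2 ≤ C ∧ ∀ m : ℕ, C ≤ m → ∀ Y : ℝ, 0 ≤ Y →
      b ^ (m * r) ≤ 2 ^ (c * m + r + 1) * ((m : ℝ) * r + 1) * Y →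
        b ^ ((1 - ε) * ((m : ℝ) * r)) * (Fintype.card (Small r (m * r)) : ℝ) ^ A < Y := by
  have hb0 : 0 < b := by linarith
  have hlb : 0 < Real.log b := Real.log_pos hb
  obtain ⟨g, hg⟩ : ∃ g : ℝ, g = 2 ^ c * 8 := ⟨_, rfl⟩
  have hg1 : 1 < g := by
    have : (1 : ℝ) ≤ 2 ^ c := one_le_pow₀ (by norm_num)
    rw [hg]
    linarith
  have hg0 : 0 < g := by linarith
  obtain ⟨r, hr⟩ := exists_nat_ge (Real.log g / (ε * Real.log b) + 1)
  have hr1 : (1 : ℝ) ≤ r := by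
    have : 0 < Real.log g / (ε * Real.log b) := div_pos (Real.log_pos hg1)
      (by positivity)
    linarith
  have hr1' : 1 ≤ r := by exact_mod_cast hr1
  have hεr : Real.log g ≤ Real.log b * (ε * r) := by
    have h1 : Real.log g / (ε * Real.log b) ≤ r := by linarith
    rw [div_le_iff₀ (by positivity)] at h1
    linarith
  have h16 : g ≤ b ^ (ε * (r : ℝ)) := by
    rw [Real.rpow_def_of_pos hb0]
    calc g = Real.exp (Real.log g) := (Real.exp_log hg0).symm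
      _ ≤ _ := Real.exp_le_exp.2 hεr
  refine ⟨r, hr1', fun A => ?_⟩
  have ht : Tendsto (fun n : ℕ => (n : ℝ) ^ (r * A + 1) / (8 : ℝ) ^ n) atTop (𝓝 0) :=
    tendsto_pow_const_div_const_pow_of_one_lt _ (by norm_num)
  have hev : ∀ᶠ m : ℕ in atTop, (m : ℝ) ^ (r * A + 1) / (8 : ℝ) ^ m <
      1 / (2 ^ (r + 1) * (2 * r) * 3 ^ (r * A)) := ht.eventually_lt_const (by positivity)
  obtain ⟨C0, hC0⟩ := eventually_atTop.1 hev
  refine ⟨max C0 2, le_max_right _ _, fun m hm Y hY h2 => ?_⟩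
  have hm2 : 2 ≤ m := (le_max_right _ _).trans hm
  have hm1 : (1 : ℝ) ≤ m := by exact_mod_cast (by omega : 1 ≤ m)
  have h1 := hC0 m ((le_max_left _ _).trans hm)
  rw [div_lt_div_iff₀ (by positivity) (by positivity), one_mul] at h1
  have h4 := card_small_le m r (by omega)
  have h5 : (Fintype.card (Small r (m * r)) : ℝ) ^ A ≤ (3 * (m : ℝ)) ^ (r * A) := by
    rw [pow_mul]
    exact pow_le_pow_left₀ (by positivity) h4 A
  have hmr : (m : ℝ) * r + 1 ≤ 2 * r * m := by nlinarith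
  -- the exponent
  have h6 : b ^ ((1 - ε) * ((m : ℝ) * r)) * g ^ m ≤ b ^ (m * r) := by
    have e2 : b ^ (m * r) = b ^ ((1 - ε) * ((m : ℝ) * r)) * (b ^ (ε * (r : ℝ))) ^ m := by
      rw [← Real.rpow_natCast b, ← Real.rpow_natCast (b ^ (ε * (r : ℝ))), ← Real.rpow_mul hb0.le,
        ← Real.rpow_add hb0]
      congr 1
      push_cast
      ring
    rw [e2]
    exact mul_le_mul_of_nonneg_left (pow_le_pow_left₀ hg0.le h16 m) (by positivity)
  have hx : (0 : ℝ) < b ^ ((1 - ε) * ((m : ℝ) * r)) := by positivity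
  have h7 : b ^ ((1 - ε) * ((m : ℝ) * r)) * g ^ m ≤
      2 ^ (c * m + r + 1) * (2 * r * m) * Y := by
    refine h6.trans (h2.trans ?_)
    gcongr
  have h8 : (2 : ℝ) ^ (r + 1) * (2 * (r : ℝ) * m) * (3 * (m : ℝ)) ^ (r * A) < 8 ^ m := by
    have e1 : (2 : ℝ) ^ (r + 1) * (2 * (r : ℝ) * m) * (3 * (m : ℝ)) ^ (r * A) =
        (m : ℝ) ^ (r * A + 1) * (2 ^ (r + 1) * (2 * r) * 3 ^ (r * A)) := by
      rw [mul_pow, pow_succ (m : ℝ)]
      ring
    rw [e1]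
    exact h1
  have e16 : g ^ m = 2 ^ (c * m) * 8 ^ m := by
    rw [hg, mul_pow, ← pow_mul]
  have e2m : (2 : ℝ) ^ (c * m + r + 1) = 2 ^ (c * m) * 2 ^ (r + 1) := by
    rw [← pow_add]
    congr 1
  obtain ⟨X, hX⟩ : ∃ X, X = b ^ ((1 - ε) * ((m : ℝ) * r)) := ⟨_, rfl⟩
  obtain ⟨N, hN⟩ : ∃ N, N = (Fintype.card (Small r (m * r)) : ℝ) ^ A := ⟨_, rfl⟩
  obtain ⟨T, hT⟩ : ∃ T, T = (8 : ℝ) ^ m := ⟨_, rfl⟩
  obtain ⟨Q, hQ⟩ : ∃ Q, Q = (3 * (m : ℝ)) ^ (r * A) := ⟨_, rfl⟩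
  obtain ⟨P, hP⟩ : ∃ P, P = (2 : ℝ) ^ (r + 1) * (2 * (r : ℝ) * m) := ⟨_, rfl⟩
  obtain ⟨Z, hZ⟩ : ∃ Z, Z = (2 : ℝ) ^ (c * m) := ⟨_, rfl⟩
  rw [← hX, ← hN]
  rw [← hX, e16, e2m, ← hT, ← hZ, mul_assoc Z, ← hP] at h7
  rw [← hP, ← hQ, ← hT] at h8
  rw [← hN, ← hQ] at h5
  rw [← hX] at hx
  have hTpos : 0 < T := by rw [hT]; positivity
  have hPpos : 0 < P := by rw [hP]; positivity
  have hQpos : 0 < Q := by rw [hQ]; positivity
  have hZpos : 0 < Z := by rw [hZ]; positivity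
  have h9 : X * T ≤ P * Y := by
    have h10 : (X * T) * Z ≤ (P * Y) * Z := by nlinarith
    exact le_of_mul_le_mul_right h10 hZpos
  have h10 : (X * N) * P < Y * P := by
    calc (X * N) * P ≤ (X * Q) * P := by gcongr
      _ = X * (P * Q) := by ring
      _ < X * T := by gcongr
      _ ≤ P * Y := h9
      _ = Y * P := mul_comm _ _
  exact lt_of_mul_lt_mul_right h10 hPpos.le

variable {K W : Type} [Field K] [Fintype W]

theorem one_linear (m r : ℕ) (hr : 0 < r) (hm : 2 ≤ m) (T : Net K (Small r (m * r)) W)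
    (a : W → K) (h1 : ∀ B : Full r (m * r), T.reads (rs B) ≤ 1) (hl : T.Linear)
    (h : ∀ x, T.value a x ≠ 0 ↔ HasCover m x) :
    2 ^ (m * r) ≤ 2 ^ (m + r) * (m * r + 1) * (T.size * Fintype.card W) := by
  obtain ⟨ρ, h⟩ := linear_final m r 0 hr hm Unit (fun _ => K) (fun _ => W) (fun _ => T)
    (fun _ => a) (fun _ => h1) (fun _ => hl) (fun _ x hx => cov_of_hasCover ((h x).1 hx))
    (fun x hx => by
      have h1 : 0 < Nat.card {_ρ : Unit // T.value a x ≠ 0} := by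
        rw [Nat.card_pos_iff]
        exact ⟨⟨⟨(), (h x).2 hx⟩⟩, inferInstance⟩
      rw [pow_zero, one_mul, Nat.card_unique]
      exact h1)
  simpa using h

theorem one_tree (m r : ℕ) (hr : 0 < r) (hm : 2 ≤ m) (T : Net K (Small r (m * r)) W)
    (a : W → K) (h1 : ∀ B : Full r (m * r), T.reads (rs B) ≤ 1)
    (h : ∀ x, T.value a x ≠ 0 ↔ HasCover m x) :
    27 ^ (m * r) ≤ 2 * 4 ^ (m * r) *
      (2 ^ m * (m * r + 1) * (T.size * Fintype.card W)) ^ 3 := by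
  obtain ⟨ρ, h⟩ := tree_final m r 0 hr hm Unit (fun _ => K) (fun _ => W) (fun _ => T)
    (fun _ => a) (fun _ => h1) (fun _ x hx => cov_of_hasCover ((h x).1 hx))
    (fun x hx => by
      have h1 : 0 < Nat.card {_ρ : Unit // T.value a x ≠ 0} := by
        rw [Nat.card_pos_iff]
        exact ⟨⟨⟨(), (h x).2 hx⟩⟩, inferInstance⟩
      rw [pow_zero, one_mul, Nat.card_unique]
      exact h1)
  simpa using h

theorem linear_asy (ε : ℝ) (hε : 0 < ε) : ∃ r : ℕ, 1 ≤ r ∧ ∀ A : ℕ, ∃ C : ℕ, ∀ m : ℕ, C ≤ m →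
    ∀ (K W : Type) [Field K] [Fintype W] (T : Net K (Small r (m * r)) W) (a : W → K),
      (∀ B : Full r (m * r), T.reads (rs B) ≤ 1) → T.Linear →
      (∀ x, T.value a x ≠ 0 ↔ HasCover m x) →
        (2 : ℝ) ^ ((1 - ε) * ((m : ℝ) * r)) * (Fintype.card (Small r (m * r)) : ℝ) ^ A <
          T.size * Fintype.card W := by
  obtain ⟨r, hr, h⟩ := asy 2 (by norm_num) ε hε 1
  refine ⟨r, hr, fun A => ?_⟩
  obtain ⟨C, hC2, hC⟩ := h A
  refine ⟨C, fun m hm K W _ _ T a h1 hl h2 => ?_⟩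
  refine hC m hm _ (by positivity) ?_
  rw [one_mul]
  have h3 := one_linear m r hr (hC2.trans hm) T a h1 hl h2
  have h4 : (2 : ℝ) ^ (m * r) ≤ 2 ^ (m + r) * ((m : ℝ) * r + 1) * (T.size * Fintype.card W) := by
    exact_mod_cast h3
  have h5 : (2 : ℝ) ^ (m + r) ≤ 2 ^ (m + r + 1) :=
    pow_le_pow_right₀ (by norm_num) (by omega)
  exact h4.trans (mul_le_mul_of_nonneg_right (mul_le_mul_of_nonneg_right h5 (by positivity))
    (by positivity))

theorem tree_asy (ε : ℝ) (hε : 0 < ε) : ∃ r : ℕ, 1 ≤ r ∧ ∀ A : ℕ, ∃ C : ℕ, ∀ m : ℕ, C ≤ m →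
    ∀ (K W : Type) [Field K] [Fintype W] (T : Net K (Small r (m * r)) W) (a : W → K),
      (∀ B : Full r (m * r), T.reads (rs B) ≤ 1) →
      (∀ x, T.value a x ≠ 0 ↔ HasCover m x) →
        ((27 / 4 : ℝ) ^ (1 / 3 : ℝ)) ^ ((1 - ε) * ((m : ℝ) * r)) *
          (Fintype.card (Small r (m * r)) : ℝ) ^ A < T.size * Fintype.card W := by
  obtain ⟨b, hb⟩ : ∃ b, b = (27 / 4 : ℝ) ^ (1 / 3 : ℝ) := ⟨_, rfl⟩
  have hb1 : 1 < b := by
    rw [hb]
    exact Real.one_lt_rpow (by norm_num) (by norm_num)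
  have hb3 : b ^ 3 = 27 / 4 := by
    rw [hb, ← Real.rpow_natCast, ← Real.rpow_mul (by norm_num)]
    norm_num
  rw [← hb]
  obtain ⟨r, hr, h⟩ := asy b hb1 ε hε 1
  refine ⟨r, hr, fun A => ?_⟩
  obtain ⟨C, hC2, hC⟩ := h A
  refine ⟨C, fun m hm K W _ _ T a h1 h2 => ?_⟩
  refine hC m hm _ (by positivity) ?_
  rw [one_mul]
  have h3 := one_tree m r hr (hC2.trans hm) T a h1 h2
  have h4 : (27 : ℝ) ^ (m * r) ≤ 2 * 4 ^ (m * r) *
      (2 ^ m * ((m : ℝ) * r + 1) * (T.size * Fintype.card W)) ^ 3 := by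
    exact_mod_cast h3
  have h5 : (b ^ (m * r)) ^ 3 ≤
      (2 * (2 ^ m * ((m : ℝ) * r + 1) * (T.size * Fintype.card W))) ^ 3 := by
    have e1 : (b ^ (m * r)) ^ 3 = 27 ^ (m * r) / 4 ^ (m * r) := by
      rw [← pow_mul, mul_comm (m * r) 3, pow_mul, hb3, div_pow]
    rw [e1, div_le_iff₀ (by positivity)]
    refine h4.trans ?_
    have h6 : (0 : ℝ) ≤ (2 ^ m * ((m : ℝ) * r + 1) * (T.size * Fintype.card W)) ^ 3 := by
      positivity
    have h7 : (0 : ℝ) ≤ 4 ^ (m * r) * (2 ^ m * ((m : ℝ) * r + 1) *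
        (T.size * Fintype.card W)) ^ 3 := by positivity
    rw [mul_pow]
    nlinarith
  have h6 := (pow_le_pow_iff_left₀ (by positivity) (by positivity) (by norm_num : 3 ≠ 0)).1 h5
  refine h6.trans ?_
  have h7 : (0 : ℝ) ≤ ((m : ℝ) * r + 1) * (T.size * Fintype.card W) := by positivity
  calc 2 * (2 ^ m * ((m : ℝ) * r + 1) * (T.size * Fintype.card W)) =
      2 ^ (m + 1) * (((m : ℝ) * r + 1) * (T.size * Fintype.card W)) := by rw [pow_succ]; ring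
    _ ≤ 2 ^ (m + r + 1) * (((m : ℝ) * r + 1) * (T.size * Fintype.card W)) :=
        mul_le_mul_of_nonneg_right (pow_le_pow_right₀ (by norm_num) (by omega)) h7
    _ = _ := by ring

end Pool.Agent.TH700.TN
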