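import Pool.Agent.TH700.TN.Cut

/-!
# Counting the partitions accepted by a function of small rank
-/

set_option autoImplicit false

open Finset

namespace Pool.Agent.TH700.TN

open Pool.Agent.W896.RK Pool.Agent.W896.HP Pool.Agent.W952.SF

variable {m r : ℕ} {K W : Type}

/-- The union of the blocks with numbers in `I`. -/
def un (I : Finset (Fin m)) (π : Num m r) : Finset (Fin (m * r)) :=
  univ.filter (fun u => (π.symm u).1 ∈ I)

theorem mem_un {I : Finset (Fin m)} {π : Num m r} {u : Fin (m * r)} :
    u ∈ un I π ↔ (π.symm u).1 ∈ I := by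
  unfold un
  simp

theorem card_un (I : Finset (Fin m)) (π : Num m r) : (un I π).card = I.card * r := by
  have : un I π = (I ×ˢ (univ : Finset (Fin r))).map π.toEmbedding := by
    ext u
    rw [mem_un, mem_map]
    constructor
    · intro h
      exact ⟨π.symm u, by simp [h], by simp⟩
    · rintro ⟨x, hx, rfl⟩
      simpa using hx
  rw [this, card_map, card_product, card_univ, Fintype.card_fin]

theorem card_stab (I : Finset (Fin m)) :
    Fintype.card {g : Equiv.Perm (Fin m × Fin r) //
      (fun x : Fin m × Fin r => decide (x.1 ∈ I)) ∘ g = (fun x => decide (x.1 ∈ I))} =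
      (I.card * r).factorial * (m * r - I.card * r).factorial := by
  rw [DomMulAct.stabilizer_card, Fintype.prod_bool]
  have h1 : Fintype.card {x : Fin m × Fin r // decide (x.1 ∈ I) = true} = I.card * r := by
    rw [Fintype.card_subtype]
    have : (univ.filter (fun x : Fin m × Fin r => decide (x.1 ∈ I) = true)) =
        I ×ˢ (univ : Finset (Fin r)) := by
      ext x
      simp
    rw [this, card_product, card_univ, Fintype.card_fin]
  have h2 : Fintype.card {x : Fin m × Fin r // decide (x.1 ∈ I) = false} =
      m * r - I.card * r := by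
    rw [Fintype.card_subtype]
    have : (univ.filter (fun x : Fin m × Fin r => decide (x.1 ∈ I) = false)) =
        Iᶜ ×ˢ (univ : Finset (Fin r)) := by
      ext x
      simp
    rw [this, card_product, card_univ, Fintype.card_fin, card_compl, Fintype.card_fin,
      Nat.sub_mul]
  rw [h1, h2]

open Classical in
theorem card_img [Field K] [Fintype W] {f : (Full r (m * r) → Bool) → K}
    {A : Finset (Full r (m * r))} (hA : Cut W f A) (hf : ∀ z, f z ≠ 0 → Cov (X z))
    (I : Finset (Fin m)) :
    ((univ.filter (fun π : Num m r => f (zf π) ≠ 0 ∧ blocks π A = I)).image (un I)).card ≤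
      Fintype.card W := by
  obtain ⟨g, H, hg, hH, hfs⟩ := hA
  obtain ⟨P, hP⟩ : ∃ P, P = univ.filter (fun π : Num m r => f (zf π) ≠ 0 ∧ blocks π A = I) :=
    ⟨_, rfl⟩
  rw [← hP]
  have hex : ∀ S : {S // S ∈ P.image (un I)}, ∃ π ∈ P, un I π = S.1 := by
    intro S
    exact mem_image.1 S.2
  choose p hp1 hp2 using hex
  have hp3 : ∀ S, f (zf (p S)) ≠ 0 ∧ blocks (p S) A = I := by
    intro S
    have := hp1 S
    rw [hP, mem_filter] at this
    exact this.2
  have key : ∀ S S', ∑ k, g (zf (p S)) k * H (zf (p S')) k ≠ 0 → S = S' := by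
    intro S S' h
    obtain ⟨z, hz⟩ : ∃ z : Full r (m * r) → Bool,
      ∀ B, z B = if B ∈ A then zf (p S) B else zf (p S') B := ⟨_, fun _ => rfl⟩
    have e1 : g z = g (zf (p S)) := hg _ _ fun B hB => by rw [hz, if_pos hB]
    have e2 : H z = H (zf (p S')) := hH _ _ fun B hB => by rw [hz, if_neg hB]
    rw [← e1, ← e2, ← hfs] at h
    have hsub : S'.1 ⊆ S.1 := by
      intro u hu
      rw [← hp2, mem_un] at hu ⊢
      obtain ⟨B, hB, huB⟩ := covers (hf z h) u
      rw [hz] at hB
      split_ifs at hB with h1
      · rw [zf_true] at hB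
        obtain ⟨i, rfl⟩ := hB
        rw [mem_blk] at huB
        rw [huB, ← (hp3 S).2, mem_blocks]
        exact h1
      · rw [zf_true] at hB
        obtain ⟨i, rfl⟩ := hB
        rw [mem_blk] at huB
        rw [huB, ← (hp3 S').2, mem_blocks] at hu
        exact absurd hu h1
    have hc : S.1.card ≤ S'.1.card := by
      rw [← hp2, ← hp2, card_un, card_un]
    exact Subtype.ext (eq_of_subset_of_card_le hsub hc).symm
  have hli : LinearIndependent K (fun S : {S // S ∈ P.image (un I)} => g (zf (p S))) := by
    rw [Fintype.linearIndependent_iff]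
    intro c hc S'
    have h1 : ∑ k, (∑ S, c S • g (zf (p S))) k * H (zf (p S')) k = 0 := by
      rw [hc]
      simp
    have h2 : ∑ k, (∑ S, c S • g (zf (p S))) k * H (zf (p S')) k =
        ∑ S, c S * ∑ k, g (zf (p S)) k * H (zf (p S')) k := by
      simp only [Finset.sum_apply, Pi.smul_apply, smul_eq_mul, Finset.sum_mul, Finset.mul_sum]
      rw [sum_comm]
      refine sum_congr rfl fun S _ => sum_congr rfl fun k _ => ?_
      ring
    rw [h2, Finset.sum_eq_single S'] at h1
    · have h3 : ∑ k, g (zf (p S')) k * H (zf (p S')) k ≠ 0 := by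
        rw [← hfs]
        exact (hp3 S').1
      exact (mul_eq_zero.1 h1).resolve_right h3
    · intro S _ hS
      by_contra h3
      exact hS (key S S' (right_ne_zero_of_mul h3))
    · intro h
      exact absurd (mem_univ _) h
  have h4 := hli.fintype_card_le_finrank
  rw [Module.finrank_fintype_fun_eq_card, Fintype.card_coe] at h4
  exact h4

open Classical in
/-- The number of accepted partitions with given blocks on one side of a cut. -/
theorem card_side [Field K] [Fintype W] {f : (Full r (m * r) → Bool) → K}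
    {A : Finset (Full r (m * r))} (hA : Cut W f A) (hf : ∀ z, f z ≠ 0 → Cov (X z))
    (I : Finset (Fin m)) :
    (univ.filter (fun π : Num m r => f (zf π) ≠ 0 ∧ blocks π A = I)).card ≤
      ((I.card * r).factorial * (m * r - I.card * r).factorial) * Fintype.card W := by
  refine le_trans (card_le_mul_card_image (f := un I) _
    ((I.card * r).factorial * (m * r - I.card * r).factorial) ?_)
    (Nat.mul_le_mul_left _ (card_img hA hf I))
  intro S hS
  obtain ⟨π₀, -, h0⟩ := mem_image.1 hS
  rw [← card_stab I, Fintype.card_subtype]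
  refine card_le_card_of_injOn (fun π => π.trans π₀.symm) ?_ ?_
  · intro π hπ
    rw [mem_coe, mem_filter] at hπ
    rw [mem_coe, mem_filter]
    refine ⟨mem_univ _, ?_⟩
    funext x
    rw [Function.comp_apply]
    show decide ((π₀.symm (π x)).1 ∈ I) = decide (x.1 ∈ I)
    have h1 : (π₀.symm (π x)).1 ∈ I ↔ x.1 ∈ I := by
      rw [← mem_un, h0, ← hπ.2, mem_un, Equiv.symm_apply_apply]
    simp only [h1]
  · intro π _ π' _ h
    have h2 : π.trans π₀.symm = π'.trans π₀.symm := h
    have h3 := congrArg (fun f => f.trans π₀) h2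
    simp only [Equiv.trans_assoc, Equiv.symm_trans_self, Equiv.trans_refl] at h3
    exact h3

open Classical in
/-- The number of accepted partitions. -/
theorem card_accept [Field K] [Fintype W] {f : (Full r (m * r) → Bool) → K}
    {C : Finset (Finset (Full r (m * r)))} (hC : ∀ A ∈ C, Cut W f A)
    (hf : ∀ z, f z ≠ 0 → Cov (X z)) (P : ℕ → Prop) (M : ℕ)
    (hw : ∀ π : Num m r, f (zf π) ≠ 0 → ∃ A ∈ C, P (blocks π A).card)
    (hM : ∀ j, j ≤ m → P j → (j * r).factorial * (m * r - j * r).factorial ≤ M) :
    (univ.filter (fun π : Num m r => f (zf π) ≠ 0)).card ≤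
      (C.card * 2 ^ m) * (M * Fintype.card W) := by
  have h1 : (univ.filter (fun π : Num m r => f (zf π) ≠ 0)) ⊆
      (C ×ˢ (univ.filter (fun I : Finset (Fin m) => P I.card))).biUnion (fun q =>
        univ.filter (fun π : Num m r => f (zf π) ≠ 0 ∧ blocks π q.1 = q.2)) := by
    intro π hπ
    rw [mem_filter] at hπ
    obtain ⟨A, hA, hP⟩ := hw π hπ.2
    rw [mem_biUnion]
    refine ⟨(A, blocks π A), ?_, ?_⟩
    · rw [mem_product, mem_filter]
      exact ⟨hA, mem_univ _, hP⟩
    · rw [mem_filter]
      exact ⟨mem_univ _, hπ.2, rfl⟩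
  refine (card_le_card h1).trans ((card_biUnion_le_card_mul _ _ (M * Fintype.card W) ?_).trans ?_)
  · intro q hq
    rw [mem_product, mem_filter] at hq
    refine (card_side (hC _ hq.1) hf q.2).trans (Nat.mul_le_mul_right _ ?_)
    refine hM _ ?_ hq.2.2
    have := card_le_univ q.2
    rwa [Fintype.card_fin] at this
  · refine Nat.mul_le_mul_right _ ?_
    rw [card_product]
    refine Nat.mul_le_mul_left _ ?_
    refine (card_filter_le _ _).trans ?_
    rw [card_univ, Fintype.card_finset, Fintype.card_fin]

end Pool.Agent.TH700.TN
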