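import Pool.Agent.TH700.TN.Defs
import Pool.Agent.W952.SF.Dec

/-!
# The cuts of a tree tensor network
-/

set_option autoImplicit false

open Finset

namespace Pool.Agent.TH700.TN

open Pool.Agent.W896.RK Pool.Agent.W896.HP Pool.Agent.W952.SF

variable {m r : ℕ} {K W : Type}

open Classical in
/-- The sets with `r` elements that are read. -/
noncomputable def rd (T : Net K (Small r (m * r)) W) : Finset (Full r (m * r)) :=
  univ.filter (fun B => 0 < T.reads (rs B))

theorem mem_rd {T : Net K (Small r (m * r)) W} {B : Full r (m * r)} :
    B ∈ rd T ↔ 0 < T.reads (rs B) := by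
  unfold rd
  simp

open Classical in
/-- The sets read below the nodes. -/
noncomputable def cuts : Net K (Small r (m * r)) W → Finset (Finset (Full r (m * r)))
  | .leaf v f => {rd (.leaf v f)}
  | .node l t c => insert (rd (.node l t c)) (cuts l ∪ cuts t)

theorem card_cuts (T : Net K (Small r (m * r)) W) : (cuts T).card ≤ T.size := by
  classical
  induction T with
  | leaf v f => simp [cuts, Net.size]
  | node l t c hl ht =>
    unfold cuts Net.size
    refine (card_insert_le _ _).trans ?_
    have := card_union_le (cuts l) (cuts t)
    omega

theorem rd_mem_cuts (T : Net K (Small r (m * r)) W) : rd T ∈ cuts T := by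
  cases T with
  | leaf v f => simp [cuts]
  | node l t c => simp [cuts]

theorem eval_dep [Semiring K] [Fintype W] (T : Net K (Small r (m * r)) W)
    {z z' : Full r (m * r) → Bool} (h : ∀ B ∈ rd T, z B = z' B) :
    T.eval (X z) = T.eval (X z') := by
  induction T with
  | leaf v f =>
    unfold Net.eval
    congr 1
    by_cases h1 : ∃ B, rs B = v
    · obtain ⟨B, rfl⟩ := h1
      rw [X_rs, X_rs]
      apply h
      rw [mem_rd]
      simp [Net.reads]
    · push Not at h1
      unfold X
      rw [fill_other _ _ h1, fill_other _ _ h1]
  | node l t c hl ht =>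
    unfold Net.eval
    rw [hl fun B hB => h B ?_, ht fun B hB => h B ?_]
    · rw [mem_rd] at hB ⊢
      unfold Net.reads
      omega
    · rw [mem_rd] at hB ⊢
      unfold Net.reads
      omega

/-- The function `f` has rank at most the number of elements of `W` for the partition of the
variables into `A` and the others. -/
def Cut [Semiring K] (W : Type) [Fintype W] (f : (Full r (m * r) → Bool) → K)
    (A : Finset (Full r (m * r))) : Prop :=
  ∃ g H : (Full r (m * r) → Bool) → W → K, (∀ z z', (∀ B ∈ A, z B = z' B) → g z = g z') ∧
    (∀ z z', (∀ B, B ∉ A → z B = z' B) → H z = H z') ∧ ∀ z, f z = ∑ k, g z k * H z k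

theorem cut_of_mem [CommSemiring K] [Fintype W] (T : Net K (Small r (m * r)) W) :
    (∀ B : Full r (m * r), T.reads (rs B) ≤ 1) →
    ∀ (f : (Full r (m * r) → Bool) → K) (H : (Full r (m * r) → Bool) → W → K),
      (∀ z z', (∀ B, B ∉ rd T → z B = z' B) → H z = H z') →
      (∀ z, f z = ∑ k, T.eval (X z) k * H z k) → ∀ A ∈ cuts T, Cut W f A := by
  induction T with
  | leaf v g =>
    intro _ f H h1 h2 A hA
    unfold cuts at hA
    rw [mem_singleton] at hA
    subst hA
    exact ⟨fun z => (Net.leaf v g).eval (X z), H, fun z z' h => eval_dep _ h, h1, h2⟩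
  | node l t c hl ht =>
    intro h0 f H h1 h2 A hA
    unfold cuts at hA
    rw [mem_insert, mem_union] at hA
    rcases hA with rfl | hA | hA
    · exact ⟨fun z => (Net.node l t c).eval (X z), H, fun z z' h => eval_dep _ h, h1, h2⟩
    · refine hl (fun B => ?_) f (fun z i => ∑ j, ∑ k, c i j k * (t.eval (X z) j * H z k)) ?_ ?_
        A hA
      · have := h0 B
        unfold Net.reads at this
        omega
      · intro z z' h
        have e1 : t.eval (X z) = t.eval (X z') := by
          refine eval_dep _ fun B hB => h B fun hB' => ?_
          rw [mem_rd] at hB hB'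
          have := h0 B
          unfold Net.reads at this
          omega
        have e2 : H z = H z' := by
          refine h1 z z' fun B hB => h B fun hB' => hB ?_
          rw [mem_rd] at hB' ⊢
          unfold Net.reads
          omega
        funext i
        simp only [e1, e2]
      · intro z
        rw [h2]
        simp only [Net.eval, Finset.mul_sum, Finset.sum_mul]
        rw [sum_comm]
        refine sum_congr rfl fun i _ => ?_
        rw [sum_comm]
        refine sum_congr rfl fun j _ => sum_congr rfl fun k _ => ?_
        ring
    · refine ht (fun B => ?_) f (fun z j => ∑ i, ∑ k, c i j k * (l.eval (X z) i * H z k)) ?_ ?_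
        A hA
      · have := h0 B
        unfold Net.reads at this
        omega
      · intro z z' h
        have e1 : l.eval (X z) = l.eval (X z') := by
          refine eval_dep _ fun B hB => h B fun hB' => ?_
          rw [mem_rd] at hB hB'
          have := h0 B
          unfold Net.reads at this
          omega
        have e2 : H z = H z' := by
          refine h1 z z' fun B hB => h B fun hB' => hB ?_
          rw [mem_rd] at hB' ⊢
          unfold Net.reads
          omega
        funext i
        simp only [e1, e2]
      · intro z
        rw [h2]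
        simp only [Net.eval, Finset.mul_sum, Finset.sum_mul]
        rw [sum_comm]
        rw [sum_comm (s := univ (α := W)) (t := univ (α := W)) (f := fun j i => ∑ k,
          t.eval (X z) j * (c i j k * (l.eval (X z) i * H z k)))]
        refine sum_congr rfl fun i _ => ?_
        rw [sum_comm]
        refine sum_congr rfl fun j _ => sum_congr rfl fun k _ => ?_
        ring

open Classical in
/-- The blocks of the partition that are read. -/
noncomputable def blocks (π : Num m r) (A : Finset (Full r (m * r))) : Finset (Fin m) :=
  univ.filter (fun i => blk π i ∈ A)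

theorem mem_blocks {π : Num m r} {A : Finset (Full r (m * r))} {i : Fin m} :
    i ∈ blocks π A ↔ blk π i ∈ A := by
  unfold blocks
  simp

theorem blocks_node (π : Num m r) (l t : Net K (Small r (m * r)) W) (c : W → W → W → K) :
    (blocks π (rd (.node l t c))).card ≤ (blocks π (rd l)).card + (blocks π (rd t)).card := by
  classical
  refine le_trans (card_le_card ?_) (card_union_le _ _)
  intro i hi
  rw [mem_blocks, mem_rd] at hi
  rw [mem_union, mem_blocks, mem_blocks, mem_rd, mem_rd]
  unfold Net.reads at hi
  omega

theorem blocks_leaf (hr : 0 < r) (π : Num m r) (v : Small r (m * r)) (f : Bool → W → K) :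
    (blocks π (rd (.leaf v f))).card ≤ 1 := by
  rw [card_le_one]
  intro i hi j hj
  rw [mem_blocks, mem_rd] at hi hj
  unfold Net.reads at hi hj
  split_ifs at hi with h1
  · split_ifs at hj with h2
    · exact blk_inj hr π (rs_inj (h1.symm.trans h2))
    · omega
  · omega

/-- Below some node there are between one third and two thirds of the blocks. -/
theorem walk_tree (hr : 0 < r) (hm : 2 ≤ m) (π : Num m r) (T : Net K (Small r (m * r)) W) :
    2 * m < 3 * (blocks π (rd T)).card → ∃ A ∈ cuts T, m ≤ 3 * (blocks π A).card ∧
      3 * (blocks π A).card ≤ 2 * m := by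
  classical
  induction T with
  | leaf v f =>
    intro h
    have := blocks_leaf hr π v f
    omega
  | node l t c hl ht =>
    intro h
    have h1 := blocks_node π l t c
    rcases le_total (blocks π (rd l)).card (blocks π (rd t)).card with h2 | h2
    · by_cases h3 : 3 * (blocks π (rd t)).card ≤ 2 * m
      · refine ⟨rd t, ?_, by omega, h3⟩
        unfold cuts
        rw [mem_insert, mem_union]
        exact Or.inr (Or.inr (rd_mem_cuts t))
      · obtain ⟨A, hA, h4⟩ := ht (by omega)
        refine ⟨A, ?_, h4⟩
        unfold cuts
        rw [mem_insert, mem_union]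
        exact Or.inr (Or.inr hA)
    · by_cases h3 : 3 * (blocks π (rd l)).card ≤ 2 * m
      · refine ⟨rd l, ?_, by omega, h3⟩
        unfold cuts
        rw [mem_insert, mem_union]
        exact Or.inr (Or.inl (rd_mem_cuts l))
      · obtain ⟨A, hA, h4⟩ := hl (by omega)
        refine ⟨A, ?_, h4⟩
        unfold cuts
        rw [mem_insert, mem_union]
        exact Or.inr (Or.inl hA)

/-- In a linear network every number of blocks occurs. -/
theorem walk_linear (hr : 0 < r) (π : Num m r) (j : ℕ) (hj : 1 ≤ j)
    (T : Net K (Small r (m * r)) W) :
    T.Linear → j ≤ (blocks π (rd T)).card → ∃ A ∈ cuts T, (blocks π A).card = j := by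
  classical
  induction T with
  | leaf v f =>
    intro _ h
    have := blocks_leaf hr π v f
    exact ⟨_, rd_mem_cuts _, by omega⟩
  | node l t c hl _ =>
    intro h0 h
    unfold Net.Linear at h0
    obtain ⟨h1, v, f, rfl⟩ := h0
    have h2 := blocks_node π l (.leaf v f) c
    have h3 := blocks_leaf hr π v f
    rcases h.eq_or_lt with h4 | h4
    · exact ⟨_, rd_mem_cuts _, h4.symm⟩
    · obtain ⟨A, hA, h5⟩ := hl h1 (by omega)
      refine ⟨A, ?_, h5⟩
      unfold cuts
      rw [mem_insert, mem_union]
      exact Or.inr (Or.inl hA)

end Pool.Agent.TH700.TN
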