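import Pool.Agent.TH700.TN.Count

/-!
# The bounds for tensor networks
-/

set_option autoImplicit false

open Finset

namespace Pool.Agent.TH700.TN

open Pool.Agent.W896.RK Pool.Agent.W896.HP Pool.Agent.W952.SF

/-! ### factorials and binomial coefficients -/

theorem fact2 {a b c d : ℕ} (hab : a ≤ b) (hac : a ≤ c) (h : a + d = b + c) :
    b.factorial * c.factorial ≤ a.factorial * d.factorial := by
  obtain ⟨e, he⟩ : ∃ e, e = c - a := ⟨_, rfl⟩
  have h1 : c - e = a := by omega
  have h2 : d - e = b := by omega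
  have e1 := Nat.factorial_mul_descFactorial (n := c) (k := e) (by omega)
  have e2 := Nat.factorial_mul_descFactorial (n := d) (k := e) (by omega)
  rw [h1] at e1
  rw [h2] at e2
  have h3 : c.descFactorial e ≤ d.descFactorial e := Nat.descFactorial_le e (by omega)
  calc b.factorial * c.factorial = b.factorial * (a.factorial * c.descFactorial e) := by rw [e1]
    _ ≤ b.factorial * (a.factorial * d.descFactorial e) :=
        Nat.mul_le_mul_left _ (Nat.mul_le_mul_left _ h3)
    _ = a.factorial * (b.factorial * d.descFactorial e) := by ring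
    _ = _ := by rw [e2]

/-- The term of the binomial expansion of `3 ^ n`. -/
def tm (n i : ℕ) : ℕ := n.choose i * 2 ^ (n - i)

theorem tm_up {n i : ℕ} (h : 3 * i + 2 ≤ n) : tm n i ≤ tm n (i + 1) := by
  unfold tm
  have h1 := Nat.choose_succ_right_eq n i
  have h2 : 2 ^ (n - i) = 2 * 2 ^ (n - (i + 1)) := by
    rw [← pow_succ']
    congr 1
    omega
  rw [h2, ← mul_assoc]
  refine Nat.mul_le_mul_right _ ?_
  have h3 : n.choose i * 2 * (i + 1) ≤ n.choose (i + 1) * (i + 1) := by
    rw [h1, mul_assoc]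
    exact Nat.mul_le_mul_left _ (by omega)
  exact Nat.le_of_mul_le_mul_right h3 (by omega)

theorem tm_down {n i : ℕ} (h : n ≤ 3 * i + 2) : tm n (i + 1) ≤ tm n i := by
  unfold tm
  rcases Nat.lt_or_ge i n with hi | hi
  · have h1 := Nat.choose_succ_right_eq n i
    have h2 : 2 ^ (n - i) = 2 * 2 ^ (n - (i + 1)) := by
      rw [← pow_succ']
      congr 1
      omega
    rw [h2, ← mul_assoc]
    refine Nat.mul_le_mul_right _ ?_
    have h3 : n.choose (i + 1) * (i + 1) ≤ n.choose i * 2 * (i + 1) := by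
      rw [h1, mul_assoc]
      exact Nat.mul_le_mul_left _ (by omega)
    exact Nat.le_of_mul_le_mul_right h3 (by omega)
  · rw [Nat.choose_eq_zero_of_lt (by omega : n < i + 1), zero_mul]
    exact Nat.zero_le _

theorem tm_le (n i : ℕ) : tm n i ≤ tm n ((n + 1) / 3) := by
  rcases le_total i ((n + 1) / 3) with h | h
  · obtain ⟨d, hd⟩ : ∃ d, (n + 1) / 3 = i + d := ⟨(n + 1) / 3 - i, by omega⟩
    rw [hd]
    have : ∀ e, e ≤ d → tm n i ≤ tm n (i + e) := by
      intro e
      induction e with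
      | zero => intro _; exact le_rfl
      | succ e ih =>
        intro he
        exact (ih (by omega)).trans (tm_up (by omega))
    exact this d le_rfl
  · obtain ⟨d, rfl⟩ : ∃ d, i = (n + 1) / 3 + d := ⟨i - (n + 1) / 3, by omega⟩
    induction d with
    | zero => exact le_rfl
    | succ d ih =>
      have h1 : n ≤ 3 * ((n + 1) / 3 + d) + 2 := by omega
      exact (tm_down h1).trans (ih (by omega))

theorem three_pow_le (n : ℕ) : 3 ^ n ≤ (n + 1) * tm n ((n + 1) / 3) := by
  have h1 := add_pow (1 : ℕ) 2 n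
  norm_num at h1
  rw [h1]
  calc ∑ i ∈ range (n + 1), 2 ^ (n - i) * n.choose i ≤
      ∑ _i ∈ range (n + 1), tm n ((n + 1) / 3) := by
        refine sum_le_sum (fun i _ => ?_)
        rw [mul_comm]
        exact tm_le n i
    _ = _ := by rw [sum_const, card_range, smul_eq_mul]

theorem tree_num (n : ℕ) : 27 ^ n ≤ 2 * 4 ^ n * ((n + 1) * n.choose ((n + 1) / 3)) ^ 3 := by
  have h1 := three_pow_le n
  unfold tm at h1
  obtain ⟨k, hk⟩ : ∃ k, k = (n + 1) / 3 := ⟨_, rfl⟩
  rw [← hk] at h1 ⊢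
  have h2 : (2 ^ (n - k)) ^ 3 ≤ 2 * 4 ^ n := by
    rw [← pow_mul, show (4 : ℕ) = 2 ^ 2 by norm_num, ← pow_mul, ← pow_succ']
    exact Nat.pow_le_pow_right (by norm_num) (by omega)
  calc 27 ^ n = (3 ^ n) ^ 3 := by rw [← pow_mul, mul_comm, pow_mul]; norm_num
    _ ≤ ((n + 1) * (n.choose k * 2 ^ (n - k))) ^ 3 := Nat.pow_le_pow_left h1 3
    _ = (2 ^ (n - k)) ^ 3 * ((n + 1) * n.choose k) ^ 3 := by ring
    _ ≤ _ := Nat.mul_le_mul_right _ h2

theorem lin_num (m r : ℕ) : 2 ^ (m * r) ≤ 2 ^ r * (m * r + 1) * (m * r).choose (m / 2 * r) := by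
  obtain ⟨a, ha⟩ : ∃ a, a = m / 2 * r := ⟨_, rfl⟩
  rw [← ha]
  have h1 : m * r ≤ 2 * a + r := by
    rw [ha]
    calc m * r ≤ (2 * (m / 2) + 1) * r := Nat.mul_le_mul_right _ (by omega)
      _ = _ := by ring
  have h2 : 2 * a ≤ m * r := by
    rw [ha]
    calc 2 * (m / 2 * r) = (2 * (m / 2)) * r := by ring
      _ ≤ _ := Nat.mul_le_mul_right _ (by omega)
  have h3 : 2 ^ (2 * a) ≤ (2 * a + 1) * (2 * a).choose a := by
    rw [← Nat.sum_range_choose]
    calc ∑ i ∈ range (2 * a + 1), (2 * a).choose i ≤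
        ∑ _i ∈ range (2 * a + 1), (2 * a).choose a := by
          refine sum_le_sum (fun i _ => ?_)
          have := Nat.choose_le_middle i (2 * a)
          rwa [Nat.mul_div_cancel_left a (by norm_num)] at this
      _ = _ := by rw [sum_const, card_range, smul_eq_mul]
  calc 2 ^ (m * r) ≤ 2 ^ (r + 2 * a) := Nat.pow_le_pow_right (by norm_num) (by omega)
    _ = 2 ^ r * 2 ^ (2 * a) := pow_add _ _ _
    _ ≤ 2 ^ r * ((2 * a + 1) * (2 * a).choose a) := Nat.mul_le_mul_left _ h3
    _ ≤ 2 ^ r * ((m * r + 1) * (m * r).choose a) :=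
        Nat.mul_le_mul_left _ (Nat.mul_le_mul (by omega) (Nat.choose_le_choose a h2))
    _ = _ := by ring

variable {m r : ℕ}

/-- Some network accepts many partitions. -/
theorem many (μ : ℕ) (R : Type) [Fintype R] [Nonempty R]
    (acc : R → (Small r (m * r) → Bool) → Prop)
    (hc : ∀ x : Small r (m * r) → Bool, HasCover m x →
      Nat.card R ≤ 2 ^ μ * Nat.card {ρ // acc ρ x}) (b : R → ℕ)
    (hb : ∀ (s : R), ∀ t : Finset (Num m r), (∀ π ∈ t, acc s (X (zf π))) → t.card ≤ b s) :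
    ∃ ρ, (m * r).factorial ≤ 2 ^ μ * b ρ := by
  classical
  by_contra hcon
  push Not at hcon
  have h1 : ∀ ρ, 2 ^ μ * (univ.filter (fun π : Num m r => acc ρ (X (zf π)))).card <
      (m * r).factorial := by
    intro ρ
    refine lt_of_le_of_lt (Nat.mul_le_mul_left _ (hb ρ _ fun π hπ => ?_)) (hcon ρ)
    exact (mem_filter.1 hπ).2
  have h2 : ∑ ρ : R, 2 ^ μ * (univ.filter (fun π : Num m r => acc ρ (X (zf π)))).card <
      Fintype.card R * (m * r).factorial := by
    calc _ < ∑ _ρ : R, (m * r).factorial :=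
          sum_lt_sum_of_nonempty univ_nonempty (fun ρ _ => h1 ρ)
      _ = _ := by rw [sum_const, card_univ, smul_eq_mul]
  have hcn : Fintype.card (Num m r) = (m * r).factorial := by
    have h3 : Fintype.card (Fin m × Fin r) = Fintype.card (Fin (m * r)) := by simp
    rw [Fintype.card_equiv (Fintype.equivOfCardEq h3), Fintype.card_prod, Fintype.card_fin,
      Fintype.card_fin]
  have h3 : Fintype.card R * (m * r).factorial ≤ ∑ ρ : R, 2 ^ μ *
      (univ.filter (fun π : Num m r => acc ρ (X (zf π)))).card := by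
    have h4 : ∑ ρ : R, (univ.filter (fun π : Num m r => acc ρ (X (zf π)))).card =
        ∑ π : Num m r, (univ.filter (fun ρ : R => acc ρ (X (zf π)))).card := by
      simp only [card_filter]
      exact sum_comm
    rw [← mul_sum, h4, mul_sum, ← hcn, mul_comm, ← smul_eq_mul, ← card_univ (α := Num m r),
      ← sum_const]
    refine sum_le_sum (fun π _ => ?_)
    have h5 := hc _ (hasCover_zf π)
    rw [Nat.card_eq_fintype_card, Nat.card_eq_fintype_card, Fintype.card_subtype] at h5
    exact h5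
  omega

section Net

variable {K W : Type} [Field K] [Fintype W] (T : Net K (Small r (m * r)) W) (a : W → K)

theorem cuts_cut (h1 : ∀ B : Full r (m * r), T.reads (rs B) ≤ 1) :
    ∀ A ∈ cuts T, Cut W (fun z => T.value a (X z)) A := by
  refine cut_of_mem T h1 _ (fun _ => a) (fun _ _ _ => rfl) (fun z => ?_)
  unfold Net.value
  exact sum_congr rfl fun k _ => mul_comm _ _

theorem all_blocks (hr : 0 < r) (hs : ∀ x, T.value a x ≠ 0 → Cov x) (π : Num m r)
    (h : T.value a (X (zf π)) ≠ 0) : (blocks π (rd T)).card = m := by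
  have : blocks π (rd T) = univ := by
    rw [eq_univ_iff_forall]
    intro i
    rw [mem_blocks]
    by_contra hi
    refine not_cover_rem hr π i (hs _ ?_)
    have : T.eval (X (rem π i)) = T.eval (X (zf π)) := by
      refine eval_dep T fun B hB => rem_eq ?_
      rintro rfl
      exact hi hB
    unfold Net.value at h ⊢
    rwa [this]
  rw [this, card_univ, Fintype.card_fin]

theorem bound_tree (hr : 0 < r) (hm : 2 ≤ m) (h1 : ∀ B : Full r (m * r), T.reads (rs B) ≤ 1)
    (hs : ∀ x, T.value a x ≠ 0 → Cov x) (t : Finset (Num m r))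
    (ht : ∀ π ∈ t, T.value a (X (zf π)) ≠ 0) :
    t.card ≤ (((m * r + 1) / 3).factorial * (m * r - (m * r + 1) / 3).factorial) *
      (2 ^ m * T.size * Fintype.card W) := by
  classical
  have h2 := card_accept (f := fun z => T.value a (X z)) (cuts_cut T a h1) (fun z => hs _)
    (fun j => m ≤ 3 * j ∧ 3 * j ≤ 2 * m)
    (((m * r + 1) / 3).factorial * (m * r - (m * r + 1) / 3).factorial)
    (fun π hπ => walk_tree hr hm π T (by rw [all_blocks T a hr hs π hπ]; omega)) ?_
  · refine (card_le_card (fun π hπ => ?_)).trans (h2.trans ?_)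
    · rw [mem_filter]
      exact ⟨mem_univ _, ht π hπ⟩
    · calc _ = (cuts T).card * (2 ^ m * ((((m * r + 1) / 3).factorial *
            (m * r - (m * r + 1) / 3).factorial) * Fintype.card W)) := by ring
        _ ≤ T.size * (2 ^ m * ((((m * r + 1) / 3).factorial *
            (m * r - (m * r + 1) / 3).factorial) * Fintype.card W)) :=
          Nat.mul_le_mul_right _ (card_cuts T)
        _ = _ := by ring
  · intro j hj h3
    have e1 : m * r ≤ 3 * (j * r) := by
      calc m * r ≤ (3 * j) * r := Nat.mul_le_mul_right _ h3.1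
        _ = _ := by ring
    have e2 : 3 * (j * r) ≤ 2 * (m * r) := by
      calc 3 * (j * r) = (3 * j) * r := by ring
        _ ≤ (2 * m) * r := Nat.mul_le_mul_right _ h3.2
        _ = _ := by ring
    exact fact2 (by omega) (by omega) (by omega)

theorem bound_linear (hr : 0 < r) (hm : 2 ≤ m) (h1 : ∀ B : Full r (m * r), T.reads (rs B) ≤ 1)
    (hl : T.Linear) (hs : ∀ x, T.value a x ≠ 0 → Cov x) (t : Finset (Num m r))
    (ht : ∀ π ∈ t, T.value a (X (zf π)) ≠ 0) :
    t.card ≤ ((m / 2 * r).factorial * (m * r - m / 2 * r).factorial) *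
      (2 ^ m * T.size * Fintype.card W) := by
  classical
  have h2 := card_accept (f := fun z => T.value a (X z)) (cuts_cut T a h1) (fun z => hs _)
    (fun j => j = m / 2) ((m / 2 * r).factorial * (m * r - m / 2 * r).factorial)
    (fun π hπ => walk_linear hr π (m / 2) (by omega) T hl
      (by rw [all_blocks T a hr hs π hπ]; omega)) ?_
  · refine (card_le_card (fun π hπ => ?_)).trans (h2.trans ?_)
    · rw [mem_filter]
      exact ⟨mem_univ _, ht π hπ⟩
    · calc _ = (cuts T).card * (2 ^ m * (((m / 2 * r).factorial *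
            (m * r - m / 2 * r).factorial) * Fintype.card W)) := by ring
        _ ≤ T.size * (2 ^ m * (((m / 2 * r).factorial *
            (m * r - m / 2 * r).factorial) * Fintype.card W)) :=
          Nat.mul_le_mul_right _ (card_cuts T)
        _ = _ := by ring
  · rintro j - rfl
    exact le_rfl

end Net

theorem cancel {n k c Y : ℕ} (hk : k ≤ n)
    (h : n.factorial ≤ c * ((k.factorial * (n - k).factorial) * Y)) :
    n.choose k ≤ c * Y := by
  have h1 := Nat.choose_mul_factorial_mul_factorial hk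
  have h2 : 0 < k.factorial * (n - k).factorial :=
    Nat.mul_pos (Nat.factorial_pos _) (Nat.factorial_pos _)
  refine Nat.le_of_mul_le_mul_right ?_ h2
  calc n.choose k * (k.factorial * (n - k).factorial) = n.factorial := by rw [← h1]; ring
    _ ≤ _ := h
    _ = _ := by ring

/-- **The bound for tree tensor networks.** -/
theorem tree_final (m r μ : ℕ) (hr : 0 < r) (hm : 2 ≤ m) (R : Type) [Fintype R] [Nonempty R]
    (K W : R → Type) [∀ ρ, Field (K ρ)] [∀ ρ, Fintype (W ρ)]
    (T : ∀ ρ, Net (K ρ) (Small r (m * r)) (W ρ)) (a : ∀ ρ, W ρ → K ρ)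
    (h1 : ∀ ρ, ∀ B : Full r (m * r), (T ρ).reads (rs B) ≤ 1)
    (hs : ∀ ρ x, (T ρ).value (a ρ) x ≠ 0 → Cov x)
    (hc : ∀ x : Small r (m * r) → Bool, HasCover m x →
      Nat.card R ≤ 2 ^ μ * Nat.card {ρ // (T ρ).value (a ρ) x ≠ 0}) :
    ∃ ρ, 27 ^ (m * r) ≤ 2 * 4 ^ (m * r) *
      (2 ^ (μ + m) * (m * r + 1) * ((T ρ).size * Fintype.card (W ρ))) ^ 3 := by
  obtain ⟨ρ, h2⟩ := many μ R (fun ρ x => (T ρ).value (a ρ) x ≠ 0) hc
    (fun ρ => (((m * r + 1) / 3).factorial * (m * r - (m * r + 1) / 3).factorial) *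
      (2 ^ m * (T ρ).size * Fintype.card (W ρ)))
    (fun ρ t ht => bound_tree (T ρ) (a ρ) hr hm (h1 ρ) (hs ρ) t ht)
  refine ⟨ρ, (tree_num (m * r)).trans (Nat.mul_le_mul_left _ (Nat.pow_le_pow_left ?_ 3))⟩
  have h3 := cancel (by omega) h2
  calc (m * r + 1) * (m * r).choose ((m * r + 1) / 3) ≤
      (m * r + 1) * (2 ^ μ * (2 ^ m * (T ρ).size * Fintype.card (W ρ))) :=
        Nat.mul_le_mul_left _ h3
    _ = _ := by rw [pow_add]; ring

/-- **The bound for linear tensor networks.** -/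
theorem linear_final (m r μ : ℕ) (hr : 0 < r) (hm : 2 ≤ m) (R : Type) [Fintype R] [Nonempty R]
    (K W : R → Type) [∀ ρ, Field (K ρ)] [∀ ρ, Fintype (W ρ)]
    (T : ∀ ρ, Net (K ρ) (Small r (m * r)) (W ρ)) (a : ∀ ρ, W ρ → K ρ)
    (h1 : ∀ ρ, ∀ B : Full r (m * r), (T ρ).reads (rs B) ≤ 1) (hl : ∀ ρ, (T ρ).Linear)
    (hs : ∀ ρ x, (T ρ).value (a ρ) x ≠ 0 → Cov x)
    (hc : ∀ x : Small r (m * r) → Bool, HasCover m x →
      Nat.card R ≤ 2 ^ μ * Nat.card {ρ // (T ρ).value (a ρ) x ≠ 0}) :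
    ∃ ρ, 2 ^ (m * r) ≤
      2 ^ (μ + m + r) * (m * r + 1) * ((T ρ).size * Fintype.card (W ρ)) := by
  obtain ⟨ρ, h2⟩ := many μ R (fun ρ x => (T ρ).value (a ρ) x ≠ 0) hc
    (fun ρ => ((m / 2 * r).factorial * (m * r - m / 2 * r).factorial) *
      (2 ^ m * (T ρ).size * Fintype.card (W ρ)))
    (fun ρ t ht => bound_linear (T ρ) (a ρ) hr hm (h1 ρ) (hl ρ) (hs ρ) t ht)
  refine ⟨ρ, (lin_num m r).trans ?_⟩
  have h3 := cancel (Nat.mul_le_mul_right r (Nat.div_le_self m 2)) h2
  calc 2 ^ r * (m * r + 1) * (m * r).choose (m / 2 * r) ≤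
      2 ^ r * (m * r + 1) * (2 ^ μ * (2 ^ m * (T ρ).size * Fintype.card (W ρ))) :=
        Nat.mul_le_mul_left _ h3
    _ = _ := by rw [pow_add, pow_add]; ring

end Pool.Agent.TH700.TN
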