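import Pool.Agent.TH700.TN.Sps

/-!
# Sums of products of sums: the asymptotic bound, and inclusion-exclusion
-/

set_option autoImplicit false

open Finset

namespace Pool.Agent.TH700.TN

open Pool.Agent.W896.RK Pool.Agent.W896.HP Pool.Agent.W952.SF

theorem one_sps {K : Type} [Field K] (m r s k : ℕ) (hr : 0 < r)
    (F : Sps K (Small r (m * r)) s k) (h : ∀ x, F.value x ≠ 0 ↔ HasCover m x) :
    2 ^ (m * r) ≤ 2 ^ (m + r) * (m * r + 1) *
      ((Fintype.card (Full r (m * r)) + 1) * (s * 2 ^ k)) := by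
  obtain ⟨ρ, h⟩ := sps_final m r 0 hr Unit (fun _ => K) (fun _ => s) (fun _ => k) (fun _ => F)
    (fun _ x hx => cov_of_hasCover ((h x).1 hx))
    (fun x hx => by
      have h1 : 0 < Nat.card {_ρ : Unit // F.value x ≠ 0} := by
        rw [Nat.card_pos_iff]
        exact ⟨⟨⟨(), (h x).2 hx⟩⟩, inferInstance⟩
      rw [pow_zero, one_mul, Nat.card_unique]
      exact h1)
  simpa only [zero_add] using h

theorem full_lt (r n : ℕ) (hr : 0 < r) :
    Fintype.card (Full r n) + 1 ≤ Fintype.card (Small r n) := by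
  classical
  have h1 : Fintype.card (Option (Full r n)) ≤ Fintype.card (Small r n) := by
    refine Fintype.card_le_of_injective
      (fun o : Option (Full r n) => o.elim (⟨∅, by simp⟩ : Small r n) rs) ?_
    intro o o' h
    cases o with
    | none =>
      cases o' with
      | none => rfl
      | some B =>
        exfalso
        have h2 : (∅ : Finset (Fin n)) = B.1 := congrArg (fun q : Small r n => q.1) h
        have := B.2
        rw [← h2, card_empty] at this
        omega
    | some B =>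
      cases o' with
      | none =>
        exfalso
        have h2 : B.1 = (∅ : Finset (Fin n)) := congrArg (fun q : Small r n => q.1) h
        have := B.2
        rw [h2, card_empty] at this
        omega
      | some B' => exact congrArg some (rs_inj h)
  rwa [Fintype.card_option] at h1

theorem sps_asy (ε : ℝ) (hε : 0 < ε) (c : ℕ) : ∃ r : ℕ, 1 ≤ r ∧ ∀ A : ℕ, ∃ C : ℕ, ∀ m : ℕ,
    C ≤ m → ∀ (K : Type) [Field K] (s k : ℕ) (F : Sps K (Small r (m * r)) s k), k ≤ c * m →
      (∀ x, F.value x ≠ 0 ↔ HasCover m x) →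
        (2 : ℝ) ^ ((1 - ε) * ((m : ℝ) * r)) * (Fintype.card (Small r (m * r)) : ℝ) ^ A < s := by
  obtain ⟨r, hr, h⟩ := asy 2 (by norm_num) ε hε (c + 1)
  refine ⟨r, hr, fun A => ?_⟩
  obtain ⟨C, hC2, hC⟩ := h (A + 1)
  refine ⟨C, fun m hm K _ s k F hk h2 => ?_⟩
  have h3 := one_sps m r s k hr F h2
  have h4 : (2 : ℝ) ^ (m * r) ≤ 2 ^ (m + r) * ((m : ℝ) * r + 1) *
      (((Fintype.card (Full r (m * r)) : ℝ) + 1) * (s * 2 ^ k)) := by
    exact_mod_cast h3
  have h5 : (2 : ℝ) ^ (m + r) * 2 ^ k ≤ 2 ^ ((c + 1) * m + r + 1) := by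
    rw [← pow_add]
    refine pow_le_pow_right₀ (by norm_num) ?_
    nlinarith
  have h6 : ((Fintype.card (Full r (m * r)) : ℝ) + 1) ≤ Fintype.card (Small r (m * r)) := by
    exact_mod_cast full_lt r (m * r) hr
  have h7 := hC m hm ((Fintype.card (Small r (m * r)) : ℝ) * s) (by positivity) (h4.trans ?_)
  · have h8 : (0 : ℝ) < Fintype.card (Small r (m * r)) := by
      have h9 : (0 : ℝ) ≤ (Fintype.card (Full r (m * r)) : ℝ) := by positivity
      linarith
    refine lt_of_mul_lt_mul_left ?_ h8.le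
    calc (Fintype.card (Small r (m * r)) : ℝ) * ((2 : ℝ) ^ ((1 - ε) * ((m : ℝ) * r)) *
          (Fintype.card (Small r (m * r)) : ℝ) ^ A) = (2 : ℝ) ^ ((1 - ε) * ((m : ℝ) * r)) *
          (Fintype.card (Small r (m * r)) : ℝ) ^ (A + 1) := by rw [pow_succ]; ring
      _ < _ := h7
  · calc (2 : ℝ) ^ (m + r) * ((m : ℝ) * r + 1) *
          (((Fintype.card (Full r (m * r)) : ℝ) + 1) * (s * 2 ^ k)) =
        (2 ^ (m + r) * 2 ^ k) * ((m : ℝ) * r + 1) *
          (((Fintype.card (Full r (m * r)) : ℝ) + 1) * s) := by ring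
      _ ≤ 2 ^ ((c + 1) * m + r + 1) * ((m : ℝ) * r + 1) *
          ((Fintype.card (Small r (m * r)) : ℝ) * s) := by gcongr

/-! ### inclusion-exclusion -/

variable {n r m : ℕ}

theorem alt_sum (U : Finset (Fin n)) :
    ∑ S : Finset (Fin n), (-1 : ℚ) ^ S.card * (if Disjoint U S then 1 else 0) =
      if U = univ then 1 else 0 := by
  classical
  have h1 := Finset.sum_powerset_neg_one_pow_card (x := Uᶜ)
  have h2 : ∑ S : Finset (Fin n), (-1 : ℚ) ^ S.card * (if Disjoint U S then 1 else 0) =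
      ∑ S ∈ Uᶜ.powerset, (-1 : ℚ) ^ S.card := by
    rw [← sum_filter_add_sum_filter_not univ (fun S : Finset (Fin n) => S ∈ Uᶜ.powerset)]
    have e1 : ∑ S ∈ univ.filter (fun S : Finset (Fin n) => S ∉ Uᶜ.powerset),
        (-1 : ℚ) ^ S.card * (if Disjoint U S then 1 else 0) = 0 := by
      refine sum_eq_zero fun S hS => ?_
      rw [mem_filter, mem_powerset, subset_compl_iff_disjoint_left] at hS
      rw [if_neg hS.2, mul_zero]
    rw [e1, add_zero]
    have e2 : univ.filter (fun S : Finset (Fin n) => S ∈ Uᶜ.powerset) = Uᶜ.powerset := by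
      ext S
      simp
    rw [e2]
    refine sum_congr rfl fun S hS => ?_
    rw [mem_powerset, subset_compl_iff_disjoint_left] at hS
    rw [if_pos hS, mul_one]
  rw [h2]
  have h3 : ((∑ S ∈ Uᶜ.powerset, (-1 : ℤ) ^ S.card : ℤ) : ℚ) =
      ((if Uᶜ = ∅ then 1 else 0 : ℤ) : ℚ) := by rw [h1]
  push_cast at h3
  rw [h3]
  by_cases h4 : U = univ
  · rw [if_pos h4, if_pos (by rw [h4, compl_univ])]
  · rw [if_neg h4, if_neg (by rwa [compl_eq_empty_iff])]

/-- Inclusion-exclusion. -/
def ie (r n m : ℕ) (e : Fin (2 ^ n) ≃ Finset (Fin n)) : Sps ℚ (Small r n) (2 ^ n) m where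
  c := fun i => (-1) ^ (e i).card
  φ := fun i _ v b => if b = true ∧ Disjoint v.1 (e i) then 1 else 0

theorem ie_value (e : Fin (2 ^ n) ≃ Finset (Fin n)) (x : Small r n → Bool) :
    (ie r n m e).value x = ∑ t : Fin m → Small r n,
      if (∀ j, x (t j) = true) ∧ univ.biUnion (fun j => (t j).1) = univ then 1 else 0 := by
  classical
  unfold Sps.value ie
  dsimp only
  rw [Equiv.sum_comp e (fun S => (-1 : ℚ) ^ S.card * ∏ _j : Fin m, ∑ v : Small r n,
    if x v = true ∧ Disjoint v.1 S then 1 else 0)]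
  have h1 : ∀ S : Finset (Fin n), (∏ _j : Fin m, ∑ v : Small r n,
      (if x v = true ∧ Disjoint v.1 S then (1 : ℚ) else 0)) =
      ∑ t : Fin m → Small r n, (if ∀ j, x (t j) = true then 1 else 0) *
        (if Disjoint (univ.biUnion (fun j => (t j).1)) S then 1 else 0) := by
    intro S
    rw [prod_univ_sum, Fintype.piFinset_univ]
    refine sum_congr rfl fun t _ => ?_
    have h2 : (∀ j, x (t j) = true ∧ Disjoint (t j).1 S) ↔ ((∀ j, x (t j) = true) ∧
        Disjoint (univ.biUnion (fun j => (t j).1)) S) := by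
      rw [disjoint_biUnion_left]
      simp only [mem_univ, forall_true_left]
      exact forall_and
    rw [Finset.prod_ite_zero]
    simp only [mem_univ, forall_true_left, prod_const_one]
    rw [if_congr h2 rfl rfl]
    by_cases h3 : ∀ j, x (t j) = true
    · by_cases h4 : Disjoint (univ.biUnion (fun j => (t j).1)) S
      · rw [if_pos ⟨h3, h4⟩, if_pos h3, if_pos h4, mul_one]
      · rw [if_neg (fun h => h4 h.2), if_neg h4, mul_zero]
    · rw [if_neg (fun h => h3 h.1), if_neg h3, zero_mul]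
  simp only [h1, mul_sum]
  rw [sum_comm]
  refine sum_congr rfl fun t _ => ?_
  have h2 := alt_sum (univ.biUnion (fun j => (t j).1))
  by_cases h3 : ∀ j, x (t j) = true
  · simp only [h3, true_and, implies_true, if_true, one_mul]
    exact h2
  · simp [h3]

theorem ie_spec (hn : 1 ≤ n) (e : Fin (2 ^ n) ≃ Finset (Fin n)) (x : Small r n → Bool) :
    (ie r n m e).value x ≠ 0 ↔ HasCover m x := by
  classical
  rw [ie_value, Ne, sum_eq_zero_iff_of_nonneg (fun t _ => by positivity)]
  push Not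
  constructor
  · rintro ⟨t, -, ht⟩
    have h1 : (∀ j, x (t j) = true) ∧ univ.biUnion (fun j => (t j).1) = univ := by
      by_contra h2
      exact ht (if_neg h2)
    refine ⟨univ.image t, card_image_le.trans (by simp), ?_, ?_⟩
    · intro B hB
      rw [mem_image] at hB
      obtain ⟨j, -, rfl⟩ := hB
      exact h1.1 j
    · intro u
      have h2 : u ∈ univ.biUnion (fun j => (t j).1) := by
        rw [h1.2]
        exact mem_univ u
      rw [mem_biUnion] at h2
      obtain ⟨j, -, hj⟩ := h2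
      exact ⟨t j, mem_image_of_mem _ (mem_univ _), hj⟩
  · rintro ⟨G, g1, g2, g3⟩
    obtain ⟨B₀, hB₀, -⟩ := g3 ⟨0, hn⟩
    obtain ⟨f, hf⟩ : ∃ f : Fin G.card ≃ {B // B ∈ G}, True := ⟨G.equivFin.symm, trivial⟩
    obtain ⟨t, ht⟩ : ∃ t : Fin m → Small r n, ∀ j, t j =
      if h : j.1 < G.card then (f ⟨j.1, h⟩).1 else B₀ := ⟨_, fun _ => rfl⟩
    have htG : ∀ j, t j ∈ G := by
      intro j
      rw [ht]
      split_ifs with h
      · exact (f ⟨j.1, h⟩).2
      · exact hB₀
    refine ⟨t, mem_univ _, ?_⟩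
    have h1 : (∀ j, x (t j) = true) ∧ univ.biUnion (fun j => (t j).1) = univ := by
      refine ⟨fun j => g2 _ (htG j), ?_⟩
      rw [eq_univ_iff_forall]
      intro u
      obtain ⟨B, hB, hu⟩ := g3 u
      rw [mem_biUnion]
      obtain ⟨i, hi⟩ := f.surjective ⟨B, hB⟩
      refine ⟨⟨i.1, lt_of_lt_of_le i.2 g1⟩, mem_univ _, ?_⟩
      rw [ht, dif_pos i.2]
      have : (f ⟨(⟨i.1, lt_of_lt_of_le i.2 g1⟩ : Fin m).1, i.2⟩).1 = B := by
        show (f i).1 = B
        rw [hi]
      rw [this]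
      exact hu
    rw [if_pos h1]
    exact one_ne_zero

theorem ie_upper (r n m : ℕ) (hn : 1 ≤ n) : ∃ F : Sps ℚ (Small r n) (2 ^ n) m,
    ∀ x, F.value x ≠ 0 ↔ HasCover m x := by
  have h1 : Fintype.card (Fin (2 ^ n)) = Fintype.card (Finset (Fin n)) := by simp
  exact ⟨_, fun x => ie_spec hn (Fintype.equivOfCardEq h1) x⟩

end Pool.Agent.TH700.TN
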