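import Pool.Agent.TH700.TN.Asy

/-!
# Sums of products of sums (inclusion-exclusion)
-/

set_option autoImplicit false

open Finset

namespace Pool.Agent.TH700.TN

open Pool.Agent.W896.RK Pool.Agent.W896.HP Pool.Agent.W952.SF

/-- A sum of `s` products of `k` additive functions, that is, of sums of functions of one variable
each. -/
structure Sps (K V : Type) (s k : ℕ) where
  /-- the coefficients of the products -/
  c : Fin s → K
  /-- the functions of one variable -/
  φ : Fin s → Fin k → V → Bool → K

/-- The output on the input `x`. -/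
def Sps.value {K V : Type} {s k : ℕ} [CommSemiring K] [Fintype V] (F : Sps K V s k)
    (x : V → Bool) : K :=
  ∑ i, F.c i * ∏ j, ∑ v, F.φ i j v (x v)

variable {m r : ℕ} {K : Type} {s k : ℕ}

open Classical in
/-- The variable can change if only variables in `A` change. -/
def inA (A : Finset (Full r (m * r))) (v : Small r (m * r)) : Prop := ∃ B ∈ A, rs B = v

theorem X_congr_in {A : Finset (Full r (m * r))} {z z' : Full r (m * r) → Bool}
    (h : ∀ B ∈ A, z B = z' B) {v : Small r (m * r)} (hv : inA A v) : X z v = X z' v := by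
  obtain ⟨B, hB, rfl⟩ := hv
  rw [X_rs, X_rs, h B hB]

theorem X_congr_out {A : Finset (Full r (m * r))} {z z' : Full r (m * r) → Bool}
    (h : ∀ B, B ∉ A → z B = z' B) {v : Small r (m * r)} (hv : ¬ inA A v) : X z v = X z' v := by
  by_cases h1 : ∃ B, rs B = v
  · obtain ⟨B, rfl⟩ := h1
    rw [X_rs, X_rs, h B fun hB => hv ⟨B, hB, rfl⟩]
  · push Not at h1
    unfold X
    rw [fill_other _ _ h1, fill_other _ _ h1]

theorem sps_cut [CommSemiring K] (F : Sps K (Small r (m * r)) s k)
    (A : Finset (Full r (m * r))) :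
    Cut (Fin s × Finset (Fin k)) (fun z => F.value (X z)) A := by
  classical
  refine ⟨fun (z : Full r (m * r) → Bool) (q : Fin s × Finset (Fin k)) =>
      F.c q.1 * ∏ j ∈ q.2, ∑ v : Small r (m * r), if inA A v then F.φ q.1 j v (X z v) else 0,
    fun (z : Full r (m * r) → Bool) (q : Fin s × Finset (Fin k)) =>
      ∏ j ∈ univ \ q.2, ∑ v : Small r (m * r), if inA A v then (0 : K) else
        F.φ q.1 j v (X z v), ?_, ?_, ?_⟩
  · intro z z' h
    funext q
    dsimp only
    congr 1
    refine prod_congr rfl fun j _ => sum_congr rfl fun v _ => ?_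
    split_ifs with hv
    · rw [X_congr_in h hv]
    · rfl
  · intro z z' h
    funext q
    dsimp only
    refine prod_congr rfl fun j _ => sum_congr rfl fun v _ => ?_
    split_ifs with hv
    · rfl
    · rw [X_congr_out h hv]
  · intro z
    unfold Sps.value
    rw [Fintype.sum_prod_type]
    refine sum_congr rfl fun i _ => ?_
    have h1 : ∀ j, ∑ v : Small r (m * r), F.φ i j v (X z v) =
        (∑ v : Small r (m * r), if inA A v then F.φ i j v (X z v) else 0) +
          ∑ v : Small r (m * r), if inA A v then (0 : K) else F.φ i j v (X z v) := by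
      intro j
      rw [← sum_add_distrib]
      refine sum_congr rfl fun v _ => ?_
      split_ifs <;> simp
    rw [prod_congr rfl fun j _ => h1 j, prod_add, mul_sum, powerset_univ]
    refine sum_congr rfl fun t _ => ?_
    rw [mul_assoc]

/-- The prefixes of an enumeration of the sets with `r` elements. -/
noncomputable def pre (r n : ℕ) (t : ℕ) : Finset (Full r n) :=
  univ.filter (fun B => (Fintype.equivFin (Full r n) B : ℕ) < t)

open Classical in
/-- All prefixes. -/
noncomputable def pres (r n : ℕ) : Finset (Finset (Full r n)) :=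
  (range (Fintype.card (Full r n) + 1)).image (pre r n)

theorem card_pres (r n : ℕ) : (pres r n).card ≤ Fintype.card (Full r n) + 1 := by
  unfold pres
  refine card_image_le.trans ?_
  rw [card_range]

theorem walk_pre (hr : 0 < r) (π : Num m r) (j : ℕ) (hj : j ≤ m) :
    ∃ A ∈ pres r (m * r), (blocks π A).card = j := by
  classical
  have h0 : (blocks π (pre r (m * r) 0)).card = 0 := by
    rw [card_eq_zero, eq_empty_iff_forall_notMem]
    intro i hi
    rw [mem_blocks] at hi
    simp [pre] at hi
  have h1 : (blocks π (pre r (m * r) (Fintype.card (Full r (m * r))))).card = m := by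
    have : blocks π (pre r (m * r) (Fintype.card (Full r (m * r)))) = univ := by
      rw [eq_univ_iff_forall]
      intro i
      rw [mem_blocks]
      unfold pre
      rw [mem_filter]
      exact ⟨mem_univ _, Fin.is_lt _⟩
    rw [this, card_univ, Fintype.card_fin]
  have hs : ∀ t, (blocks π (pre r (m * r) (t + 1))).card ≤
      (blocks π (pre r (m * r) t)).card + 1 := by
    intro t
    have h2 : blocks π (pre r (m * r) (t + 1)) ⊆ blocks π (pre r (m * r) t) ∪
        univ.filter (fun i => (Fintype.equivFin (Full r (m * r)) (blk π i) : ℕ) = t) := by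
      intro i hi
      rw [mem_blocks] at hi
      rw [mem_union, mem_blocks]
      simp only [pre, mem_filter, mem_univ, true_and] at hi ⊢
      omega
    refine (card_le_card h2).trans ((card_union_le _ _).trans ?_)
    have h3 : (univ.filter (fun i => (Fintype.equivFin (Full r (m * r)) (blk π i) : ℕ) = t)).card
        ≤ 1 := by
      rw [card_le_one]
      intro i hi i' hi'
      rw [mem_filter] at hi hi'
      have h4 : Fintype.equivFin (Full r (m * r)) (blk π i) =
          Fintype.equivFin (Full r (m * r)) (blk π i') := Fin.ext (hi.2.trans hi'.2.symm)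
      exact blk_inj hr π (Equiv.injective _ h4)
    omega
  -- the first time with at least `j` blocks
  have hex : ∃ t, j ≤ (blocks π (pre r (m * r) t)).card := ⟨_, by rw [h1]; exact hj⟩
  obtain ⟨t, ht, hmin⟩ : ∃ t, j ≤ (blocks π (pre r (m * r) t)).card ∧
      ∀ t' < t, ¬ j ≤ (blocks π (pre r (m * r) t')).card :=
    ⟨Nat.find hex, Nat.find_spec hex, fun t' h => Nat.find_min hex h⟩
  have hle : t ≤ Fintype.card (Full r (m * r)) := by
    by_contra h
    push Not at h
    exact hmin _ h (by rw [h1]; exact hj)
  refine ⟨pre r (m * r) t, ?_, ?_⟩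
  · unfold pres
    exact mem_image_of_mem _ (mem_range.2 (by omega))
  · rcases Nat.eq_zero_or_pos t with rfl | htp
    · omega
    · have h5 := hmin (t - 1) (by omega)
      have h6 := hs (t - 1)
      rw [Nat.sub_add_cancel htp] at h6
      omega

theorem bound_sps [Field K] (F : Sps K (Small r (m * r)) s k) (hr : 0 < r)
    (hs : ∀ x, F.value x ≠ 0 → Cov x) (t : Finset (Num m r))
    (ht : ∀ π ∈ t, F.value (X (zf π)) ≠ 0) :
    t.card ≤ ((m / 2 * r).factorial * (m * r - m / 2 * r).factorial) *
      (2 ^ m * (Fintype.card (Full r (m * r)) + 1) * (s * 2 ^ k)) := by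
  classical
  have h2 := card_accept (f := fun z => F.value (X z)) (C := pres r (m * r))
    (fun A _ => sps_cut F A) (fun z => hs _)
    (fun j => j = m / 2) ((m / 2 * r).factorial * (m * r - m / 2 * r).factorial)
    (fun π _ => walk_pre hr π (m / 2) (Nat.div_le_self m 2)) ?_
  · refine (card_le_card (fun π hπ => ?_)).trans (h2.trans ?_)
    · rw [mem_filter]
      exact ⟨mem_univ _, ht π hπ⟩
    · rw [Fintype.card_prod, Fintype.card_fin, Fintype.card_finset, Fintype.card_fin]
      calc _ = (pres r (m * r)).card * (2 ^ m * (((m / 2 * r).factorial *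
            (m * r - m / 2 * r).factorial) * (s * 2 ^ k))) := by ring
        _ ≤ (Fintype.card (Full r (m * r)) + 1) * (2 ^ m * (((m / 2 * r).factorial *
            (m * r - m / 2 * r).factorial) * (s * 2 ^ k))) :=
          Nat.mul_le_mul_right _ (card_pres r (m * r))
        _ = _ := by ring
  · rintro j - rfl
    exact le_rfl

/-- **The bound for sums of products of sums.** -/
theorem sps_final (m r μ : ℕ) (hr : 0 < r) (R : Type) [Fintype R] [Nonempty R]
    (K : R → Type) [∀ ρ, Field (K ρ)] (s k : R → ℕ)
    (F : ∀ ρ, Sps (K ρ) (Small r (m * r)) (s ρ) (k ρ))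
    (hs : ∀ ρ x, (F ρ).value x ≠ 0 → Cov x)
    (hc : ∀ x : Small r (m * r) → Bool, HasCover m x →
      Nat.card R ≤ 2 ^ μ * Nat.card {ρ // (F ρ).value x ≠ 0}) :
    ∃ ρ, 2 ^ (m * r) ≤ 2 ^ (μ + m + r) * (m * r + 1) *
      ((Fintype.card (Full r (m * r)) + 1) * (s ρ * 2 ^ k ρ)) := by
  obtain ⟨ρ, h2⟩ := many μ R (fun ρ x => (F ρ).value x ≠ 0) hc
    (fun ρ => ((m / 2 * r).factorial * (m * r - m / 2 * r).factorial) *
      (2 ^ m * (Fintype.card (Full r (m * r)) + 1) * (s ρ * 2 ^ k ρ)))
    (fun ρ t ht => bound_sps (F ρ) hr (hs ρ) t ht)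
  refine ⟨ρ, (lin_num m r).trans ?_⟩
  have h3 := cancel (Nat.mul_le_mul_right r (Nat.div_le_self m 2)) h2
  calc 2 ^ r * (m * r + 1) * (m * r).choose (m / 2 * r) ≤
      2 ^ r * (m * r + 1) * (2 ^ μ * (2 ^ m * (Fintype.card (Full r (m * r)) + 1) *
        (s ρ * 2 ^ k ρ))) := Nat.mul_le_mul_left _ h3
    _ = _ := by rw [pow_add, pow_add]; ring

end Pool.Agent.TH700.TN
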